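import Pool.Agent.W670.ML.Defs2

set_option autoImplicit false

namespace Pool.Agent.W82.ML2

open NumberField Pool.Agent.W670.ML

theorem db : S_DB := by
  intro K B _ _ _ _ _
  have hfp := Module.finitePresentation_of_finite (𝓞 K) (𝓞 B)
  have hpr : Module.Projective (𝓞 K) (𝓞 B) := Module.Flat.projective_of_finitePresentation
  obtain ⟨s, f, g, -, -, hfg⟩ := Module.Finite.exists_comp_eq_id_of_projective (𝓞 K) (𝓞 B)
  let ι : 𝓞 B →ₗ[𝓞 K] B := (IsScalarTower.toAlgHom (𝓞 K) (𝓞 B) B).toLinearMap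
  have hι : ∀ x, ι x = (x : B) := fun x => rfl
  have hloc : IsLocalizedModule (nonZeroDivisors (𝓞 K)) ι := by
    show IsLocalizedModule (nonZeroDivisors (𝓞 K))
      (IsScalarTower.toAlgHom (𝓞 K) (𝓞 B) B).toLinearMap
    rw [isLocalizedModule_iff_isLocalization]
    exact IsIntegralClosure.isLocalization (𝓞 K) K B (𝓞 B)
  let c : Fin s → (𝓞 B →ₗ[𝓞 K] K) := fun j =>
    (Algebra.linearMap (𝓞 K) K) ∘ₗ (LinearMap.proj j) ∘ₗ g
  have hc : ∀ j x, c j x = algebraMap (𝓞 K) K (g x j) := fun j x => rfl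
  have hunit : ∀ x : nonZeroDivisors (𝓞 K),
      IsUnit (algebraMap (𝓞 K) (Module.End (𝓞 K) K) x) := fun x =>
    IsLocalizedModule.map_units (Algebra.linearMap (𝓞 K) K) x
  let F : Fin s → (B →ₗ[𝓞 K] K) := fun j =>
    IsLocalizedModule.lift (nonZeroDivisors (𝓞 K)) ι (c j) hunit
  let F' : Fin s → (B →ₗ[K] K) := fun j =>
    (F j).extendScalarsOfIsLocalization (nonZeroDivisors (𝓞 K)) K
  have hF' : ∀ j x, F' j (ι x) = algebraMap (𝓞 K) K (g x j) := by
    intro j x
    have h1 : F' j (ι x) = F j (ι x) := rfl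
    rw [h1, ← hc]
    exact IsLocalizedModule.lift_apply (nonZeroDivisors (𝓞 K)) ι (c j) hunit x
  let γ : Fin s → B := fun j =>
    ((Algebra.traceForm K B).toDual (traceForm_nondegenerate K B)).symm (F' j)
  have hγ : ∀ j y, Algebra.trace K B (γ j * y) = F' j y := by
    intro j y
    have h1 : (Algebra.traceForm K B).toDual (traceForm_nondegenerate K B) (γ j) = F' j :=
      LinearEquiv.apply_symm_apply _ _
    have h2 := congrArg (fun L => L y) h1
    simpa [LinearMap.BilinForm.toDual_def, Algebra.traceForm_apply] using h2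
  let β : Fin s → B := fun j => ((f (Pi.single j 1) : 𝓞 B) : B)
  refine ⟨s, β, γ, fun j => RingOfIntegers.isIntegral_coe _, fun j y hy => ?_, fun y => ?_⟩
  · rw [hγ]
    obtain ⟨x, hx⟩ : ∃ x : 𝓞 B, (x : B) = y := ⟨⟨y, hy⟩, rfl⟩
    rw [← hx, ← hι, hF']
    exact RingOfIntegers.isIntegral_coe _
  · have hxid : ∀ x : 𝓞 B, ∑ j, F' j (ι x) • β j = ι x := by
      intro x
      have h1 : f (g x) = x := by
        have := congrArg (fun L => L x) hfg
        simpa using this
      have h2 : g x = ∑ j, (g x j) • (Pi.single j (1 : 𝓞 K) : Fin s → 𝓞 K) := by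
        exact pi_eq_sum_univ' (g x)
      have h3 : x = ∑ j, (g x j) • f (Pi.single j 1) := by
        conv_lhs => rw [← h1, h2]
        rw [map_sum]
        refine Finset.sum_congr rfl fun j _ => ?_
        rw [map_smul]
      conv_rhs => rw [h3]
      rw [map_sum]
      refine Finset.sum_congr rfl fun j _ => ?_
      rw [map_smul, hF', hι]
      exact algebraMap_smul K (g x j) (β j)
    obtain ⟨⟨x, n⟩, hx⟩ := IsLocalizedModule.surj (nonZeroDivisors (𝓞 K)) ι y
    have hn : (algebraMap (𝓞 K) K (n : 𝓞 K)) ≠ 0 := by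
      have h1 : (n : 𝓞 K) ≠ 0 := nonZeroDivisors.ne_zero n.2
      exact (map_ne_zero_iff _ (RingOfIntegers.coe_injective)).mpr h1
    have hx' : (algebraMap (𝓞 K) K (n : 𝓞 K)) • y = ι x := by
      rw [algebraMap_smul]
      exact hx
    have h5 : (algebraMap (𝓞 K) K (n : 𝓞 K)) • y =
        (algebraMap (𝓞 K) K (n : 𝓞 K)) • ∑ j, Algebra.trace K B (γ j * y) • β j := by
      rw [Finset.smul_sum]
      conv_lhs => rw [hx', ← hxid x, ← hx']
      refine Finset.sum_congr rfl fun j _ => ?_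
      rw [hγ, map_smul, smul_assoc]
    exact smul_right_injective B hn h5

end Pool.Agent.W82.ML2
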